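import Mathlib

/-!
Project SQ (MP_71c16a_nt), Lemma K: a knapsack duality. Costs `a i < d`, total cost at most `p * d`; a measure on sets with at
most `p` elements which gives mass at most one to the sets that meet a given set of cost smaller than `d` has mean
cardinality at most `2 * p`. Here: the inductive core, for costs in increasing order.
-/

set_option linter.unusedSectionVars false
set_option linter.unusedVariables false
set_option linter.unusedSimpArgs false

open Finset

namespace Pool.Agent.LK94

section core

variable {Ω : Type*} [Fintype Ω] (X : Ω → Finset ℕ)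

/-- the mass of the sets that meet `Z` -/
noncomputable def hit (w : Ω → ℝ) (Z : Finset ℕ) : ℝ := by
  classical exact ∑ ω, if ∃ i ∈ Z, i ∈ X ω then w ω else 0

/-- the mean cardinality on `Q` -/
noncomputable def vol (w : Ω → ℝ) (Q : Finset ℕ) : ℝ := ∑ ω, w ω * ((X ω ∩ Q).card : ℝ)

variable {X}

theorem hit_single (w : Ω → ℝ) (j : ℕ) : hit X w {j} = ∑ ω, if j ∈ X ω then w ω else 0 := by
  unfold hit
  refine Finset.sum_congr rfl fun ω _ => ?_
  simp only [Finset.mem_singleton, exists_eq_left]

theorem hit_nonneg {w : Ω → ℝ} (hw : ∀ ω, 0 ≤ w ω) (Z : Finset ℕ) : 0 ≤ hit X w Z := by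
  unfold hit
  refine Finset.sum_nonneg fun ω _ => ?_
  split_ifs
  · exact hw ω
  · exact le_refl _

/-- one more item -/
theorem vol_insert (w : Ω → ℝ) {j : ℕ} {Q : Finset ℕ} (hj : j ∉ Q) :
    vol X w (insert j Q) = hit X w {j} + vol X w Q := by
  rw [hit_single]
  unfold vol
  rw [← Finset.sum_add_distrib]
  refine Finset.sum_congr rfl fun ω _ => ?_
  by_cases h : j ∈ X ω
  · rw [Finset.inter_insert_of_mem h, Finset.card_insert_of_notMem (fun h' => hj (Finset.mem_inter.1 h').2), if_pos h]
    push_cast
    ring
  · rw [Finset.inter_insert_of_notMem h, if_neg h, zero_add]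

/-- the trivial bound -/
theorem vol_le_card {w : Ω → ℝ} {t : ℝ} (Q : Finset ℕ) (h : ∀ j ∈ Q, hit X w {j} ≤ t) : vol X w Q ≤ Q.card * t := by
  induction Q using Finset.induction_on with
  | empty => simp [vol]
  | insert j Q hj ih =>
    rw [vol_insert w hj, Finset.card_insert_of_notMem hj]
    have h1 := h j (Finset.mem_insert_self _ _)
    have h2 := ih fun i hi => h i (Finset.mem_insert_of_mem hi)
    push_cast
    linarith

/-- contraction: the measure restricted to the sets without `j` -/
noncomputable def res (X : Ω → Finset ℕ) (w : Ω → ℝ) (j : ℕ) : Ω → ℝ := fun ω => if j ∈ X ω then 0 else w ω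

theorem res_nonneg {w : Ω → ℝ} (hw : ∀ ω, 0 ≤ w ω) (j : ℕ) (ω : Ω) : 0 ≤ res X w j ω := by
  unfold res
  split_ifs
  · exact le_refl _
  · exact hw ω

theorem hit_res (w : Ω → ℝ) (j : ℕ) (Z : Finset ℕ) : hit X (res X w j) Z + hit X w {j} = hit X w (insert j Z) := by
  rw [hit_single]
  unfold hit res
  rw [← Finset.sum_add_distrib]
  refine Finset.sum_congr rfl fun ω _ => ?_
  by_cases h : j ∈ X ω
  · have h1 : ∃ i ∈ insert j Z, i ∈ X ω := ⟨j, Finset.mem_insert_self _ _, h⟩
    rw [if_pos h1]
    simp [h]
  · by_cases h2 : ∃ i ∈ Z, i ∈ X ω
    · have h1 : ∃ i ∈ insert j Z, i ∈ X ω := by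
        obtain ⟨i, hi, hi'⟩ := h2
        exact ⟨i, Finset.mem_insert_of_mem hi, hi'⟩
      rw [if_pos h1, if_pos h2, if_neg h, if_neg h, add_zero]
    · have h1 : ¬ ∃ i ∈ insert j Z, i ∈ X ω := by
        rintro ⟨i, hi, hi'⟩
        rcases Finset.mem_insert.1 hi with rfl | hi
        · exact h hi'
        · exact h2 ⟨i, hi, hi'⟩
      rw [if_neg h1, if_neg h2, if_neg h, add_zero]

theorem vol_res {w : Ω → ℝ} (hw : ∀ ω, 0 ≤ w ω) {p : ℕ} (hX : ∀ ω, (X ω).card ≤ p) {j : ℕ} {Q : Finset ℕ} (hj : j ∉ Q) :
    vol X w (insert j Q) ≤ p * hit X w {j} + vol X (res X w j) Q := by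
  rw [hit_single, Finset.mul_sum]
  unfold vol res
  rw [← Finset.sum_add_distrib]
  refine Finset.sum_le_sum fun ω _ => ?_
  by_cases h : j ∈ X ω
  · rw [if_pos h, if_pos h, zero_mul, add_zero, mul_comm]
    refine mul_le_mul_of_nonneg_right ?_ (hw ω)
    exact_mod_cast (Finset.card_le_card Finset.inter_subset_left).trans (hX ω)
  · rw [if_neg h, if_neg h, mul_zero, zero_add, Finset.inter_insert_of_notMem h]

/-- the budget needed by `m` small and `J` large items -/
noncomputable def need (a : ℕ → ℝ) (p : ℕ) (x d : ℝ) (lo m J : ℕ) : ℝ :=
  ∑ i ∈ range m, a (lo + i) + J * (d - x) - ∑ i ∈ range J, max 0 (d - a (lo + m + p + i) - a (lo + m))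

theorem need_nonneg_sum {a : ℕ → ℝ} (ha0 : ∀ i, 0 < a i) (lo m : ℕ) : 0 ≤ ∑ i ∈ range m, a (lo + i) :=
  Finset.sum_nonneg fun i _ => (ha0 _).le

/-- **The inductive core.** -/
theorem core {p : ℕ} {a : ℕ → ℝ} (ha : Monotone a) (ha0 : ∀ i, 0 < a i) (x : ℝ) (hX : ∀ ω, (X ω).card ≤ p) (n : ℕ) :
    ∀ (lo : ℕ) (d b t : ℝ) (w : Ω → ℝ), (∀ ω, 0 ≤ w ω) → 0 ≤ t → x < d → (∀ i ∈ Ico lo (lo + n), a i < d) →
      (∀ Z ⊆ Ico lo (lo + n), ∑ i ∈ Z, a i < d → hit X w Z ≤ t) → 0 ≤ b →
      (∀ m J, m + p + J = n → need a p x d lo m J ≤ b) → vol X w (Ico lo (lo + n)) ≤ t * (p + b / (d - x)) := by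
  induction n with
  | zero =>
    intro lo d b t w hw ht hx had hZ hb hP
    have h1 : vol X w (Ico lo (lo + 0)) = 0 := by simp [vol]
    rw [h1]
    have : 0 < d - x := sub_pos.2 hx
    positivity
  | succ n ih =>
    intro lo d b t w hw ht hx had hZ hb hP
    have hu : 0 < d - x := sub_pos.2 hx
    have hbu : 0 ≤ b / (d - x) := div_nonneg hb hu.le
    have hsing : ∀ j ∈ Ico lo (lo + (n + 1)), hit X w {j} ≤ t := by
      intro j hj
      refine hZ {j} (Finset.singleton_subset_iff.2 hj) ?_
      rw [Finset.sum_singleton]
      exact had j hj
    have hcard : vol X w (Ico lo (lo + (n + 1))) ≤ (n + 1) * t := by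
      have := vol_le_card (X := X) (w := w) (Ico lo (lo + (n + 1))) hsing
      rw [Nat.card_Ico, Nat.add_sub_cancel_left] at this
      push_cast at this
      exact this
    by_cases hn : n + 1 ≤ p
    · have h1 : ((n : ℝ) + 1) * t ≤ p * t := by
        refine mul_le_mul_of_nonneg_right ?_ ht
        exact_mod_cast hn
      have h2 : 0 ≤ t * (b / (d - x)) := mul_nonneg ht hbu
      nlinarith
    · obtain ⟨q, hq⟩ : ∃ q, n = p + q := ⟨n - p, by omega⟩
      have hP0 := hP (q + 1) 0 (by omega)
      have e0 : need a p x d lo (q + 1) 0 = ∑ i ∈ range (q + 1), a (lo + i) := by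
        unfold need
        simp
      rw [e0] at hP0
      by_cases c0 : d - x ≤ a lo
      · -- everything is large
        have h1 : ((q : ℝ) + 1) * (d - x) ≤ ∑ i ∈ range (q + 1), a (lo + i) := by
          have h2 : ∑ i ∈ range (q + 1), (d - x) ≤ ∑ i ∈ range (q + 1), a (lo + i) :=
            Finset.sum_le_sum fun i _ => c0.trans (ha (Nat.le_add_right _ _))
          rw [Finset.sum_const, Finset.card_range, nsmul_eq_mul] at h2
          push_cast at h2
          exact h2
        have h2 : (q : ℝ) + 1 ≤ b / (d - x) := by
          rw [le_div_iff₀ hu]
          linarith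
        have h3 : ((n : ℝ) + 1) * t ≤ t * (p + b / (d - x)) := by
          have h4 : ((n : ℝ) + 1) ≤ p + b / (d - x) := by
            rw [hq]
            push_cast
            linarith
          nlinarith
        exact hcard.trans h3
      · rw [not_le] at c0
        by_cases c1 : d ≤ a (lo + n) + a lo
        · -- the largest item is removed
          have hins : Ico lo (lo + (n + 1)) = insert (lo + n) (Ico lo (lo + n)) := by
            ext i
            simp only [Finset.mem_Ico, Finset.mem_insert]
            omega
          have hnot : lo + n ∉ Ico lo (lo + n) := by simp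
          have hsub : Ico lo (lo + n) ⊆ Ico lo (lo + (n + 1)) := by
            rw [hins]
            exact Finset.subset_insert _ _
          have key : ∀ m J, m + p + J = n → need a p x d lo m J ≤ b - (d - x) := by
            intro m J hmJ
            have h1 := hP m (J + 1) (by omega)
            unfold need at h1 ⊢
            rw [Finset.sum_range_succ _ J, show lo + m + p + J = lo + n by omega] at h1
            have h2 : max 0 (d - a (lo + n) - a (lo + m)) = 0 := by
              apply max_eq_left
              have : a lo ≤ a (lo + m) := ha (Nat.le_add_right _ _)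
              linarith
            rw [h2] at h1
            push_cast at h1
            linarith
          have hb' : 0 ≤ b - (d - x) := by
            have h1 := key q 0 (by omega)
            have h2 : need a p x d lo q 0 = ∑ i ∈ range q, a (lo + i) := by
              unfold need
              simp
            rw [h2] at h1
            exact (need_nonneg_sum ha0 lo q).trans h1
          have h1 := ih lo d (b - (d - x)) t w hw ht hx (fun i hi => had i (hsub hi))
            (fun Z hZs hZc => hZ Z (hZs.trans hsub) hZc) hb' key
          rw [hins, vol_insert w hnot]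
          have h2 := hsing (lo + n) (by rw [hins]; exact Finset.mem_insert_self _ _)
          have h3 : (b - (d - x)) / (d - x) = b / (d - x) - 1 := by
            rw [sub_div, div_self hu.ne']
          rw [h3] at h1
          linarith
        · rw [not_le] at c1
          -- the smallest item is removed or contracted
          have hins : Ico lo (lo + (n + 1)) = insert lo (Ico (lo + 1) (lo + 1 + n)) := by
            ext i
            simp only [Finset.mem_Ico, Finset.mem_insert]
            omega
          have hnot : lo ∉ Ico (lo + 1) (lo + 1 + n) := by simp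
          have hsub : Ico (lo + 1) (lo + 1 + n) ⊆ Ico lo (lo + (n + 1)) := by
            rw [hins]
            exact Finset.subset_insert _ _
          have hθ := hsing lo (by rw [hins]; exact Finset.mem_insert_self _ _)
          have hθ0 : 0 ≤ hit X w {lo} := hit_nonneg hw _
          obtain ⟨θ, hθd⟩ : ∃ θ, θ = hit X w {lo} := ⟨_, rfl⟩
          rw [← hθd] at hθ hθ0
          have hb1 : a lo ≤ b := by
            refine le_trans ?_ hP0
            rw [Finset.sum_range_succ', add_zero]
            have := Finset.sum_nonneg (s := range q) (f := fun i => a (lo + (i + 1))) fun i _ => (ha0 _).le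
            linarith
          -- first bound
          have B1 : vol X w (Ico lo (lo + (n + 1))) ≤ θ + t * (p + (b - a lo) / (d - x)) := by
            rw [hins, vol_insert w hnot, ← hθd]
            have h1 := ih (lo + 1) d (b - a lo) t w hw ht hx (fun i hi => had i (hsub hi))
              (fun Z hZs hZc => hZ Z (hZs.trans hsub) hZc) (by linarith) (by
              intro m J hmJ
              have h1 := hP (m + 1) J (by omega)
              unfold need at h1 ⊢
              rw [Finset.sum_range_succ' _ m, add_zero] at h1
              have e1 : ∀ i, lo + 1 + i = lo + (i + 1) := fun i => by omega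
              have e2 : ∀ i, lo + 1 + m + p + i = lo + (m + 1) + p + i := fun i => by omega
              have e3 : lo + 1 + m = lo + (m + 1) := by omega
              simp only [e1, e2, e3] at h1 ⊢
              linarith)
            linarith
          -- second bound
          have hu1 : 0 < d - a lo - x := by linarith
          have B2 : vol X w (Ico lo (lo + (n + 1))) ≤ p * θ + (t - θ) * (p + b / (d - a lo - x)) := by
            rw [hins]
            refine (vol_res hw hX hnot).trans ?_
            rw [← hθd]
            have h1 := ih (lo + 1) (d - a lo) b (t - θ) (res X w lo) (res_nonneg hw lo) (by linarith) (by linarith)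
              (by
                intro i hi
                have h2 : a i ≤ a (lo + n) := ha (by
                  have := (Finset.mem_Ico.1 hi).2
                  omega)
                linarith)
              (by
                intro Z hZs hZc
                have h2 := hit_res (X := X) w lo Z
                have h3 : lo ∉ Z := fun h => hnot (hZs h)
                have h4 := hZ (insert lo Z) (by
                  rw [hins]
                  exact Finset.insert_subset_insert _ hZs) (by
                  rw [Finset.sum_insert h3]
                  linarith)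
                rw [← hθd] at h2
                linarith)
              hb (by
              intro m J hmJ
              have h1 := hP (m + 1) J (by omega)
              unfold need at h1 ⊢
              rw [Finset.sum_range_succ' _ m, add_zero] at h1
              have e1 : ∀ i, lo + 1 + i = lo + (i + 1) := fun i => by omega
              have e2 : ∀ i, lo + 1 + m + p + i = lo + (m + 1) + p + i := fun i => by omega
              have e3 : lo + 1 + m = lo + (m + 1) := by omega
              simp only [e1, e2, e3] at h1 ⊢
              have h2 : ∑ i ∈ range J, max 0 (d - a (lo + (m + 1) + p + i) - a (lo + (m + 1))) ≤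
                  ∑ i ∈ range J, (max 0 (d - a lo - a (lo + (m + 1) + p + i) - a (lo + (m + 1))) + a lo) := by
                refine Finset.sum_le_sum fun i _ => ?_
                refine max_le ?_ ?_
                · have := le_max_left 0 (d - a lo - a (lo + (m + 1) + p + i) - a (lo + (m + 1)))
                  have := ha0 lo
                  linarith
                · have := le_max_right 0 (d - a lo - a (lo + (m + 1) + p + i) - a (lo + (m + 1)))
                  linarith
              rw [Finset.sum_add_distrib, Finset.sum_const, Finset.card_range, nsmul_eq_mul] at h2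
              have h3 := ha0 lo
              nlinarith)
            linarith
          rcases le_total (θ * (d - x)) (t * a lo) with h1 | h1
          · refine B1.trans ?_
            have h2 : θ ≤ t * (a lo / (d - x)) := by
              rw [← mul_div_assoc, le_div_iff₀ hu]
              exact h1
            rw [sub_div]
            nlinarith
          · refine B2.trans ?_
            have h2 : (t - θ) * (b / (d - a lo - x)) ≤ t * (b / (d - x)) := by
              rw [← mul_div_assoc, ← mul_div_assoc, div_le_div_iff₀ hu1 hu]
              have h3 : (t - θ) * (d - x) ≤ t * (d - a lo - x) := by nlinarith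
              nlinarith
            nlinarith

end core

end Pool.Agent.LK94
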