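import Pool.Agent.Helper94.LK.Core

/-!
Project SQ (MP_71c16a_nt), Lemma K: a knapsack duality. Costs `0 < k i < d`, total cost at most `p * d`; a measure on sets with
at most `p` elements which gives mass at most `t` to the sets that meet a given set of cost smaller than `d` has mean
cardinality at most `2 * p * t`.
-/

set_option linter.unusedSectionVars false
set_option linter.unusedVariables false

open Finset

namespace Pool.Agent.LK94

variable {Ω : Type*} [Fintype Ω]

/-- Lemma K for costs in increasing order. -/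
theorem seq {X : Ω → Finset ℕ} {p : ℕ} {a : ℕ → ℝ} (ha : Monotone a) (ha0 : ∀ i, 0 < a i) (hX : ∀ ω, (X ω).card ≤ p) (n : ℕ)
    {d t : ℝ} (had : ∀ i ∈ Ico 0 n, a i < d) (hK : ∑ i ∈ range n, a i ≤ p * d) {w : Ω → ℝ} (hw : ∀ ω, 0 ≤ w ω) (ht : 0 ≤ t)
    (hZ : ∀ Z ⊆ Ico 0 n, ∑ i ∈ Z, a i < d → hit X w Z ≤ t) : vol X w (Ico 0 n) ≤ 2 * p * t := by
  by_cases hn : n ≤ p
  · have h1 := vol_le_card (X := X) (w := w) (t := t) (Ico 0 n) (fun j hj => by
      refine hZ {j} (Finset.singleton_subset_iff.2 hj) ?_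
      rw [Finset.sum_singleton]
      exact had j hj)
    rw [Nat.card_Ico, Nat.sub_zero] at h1
    have h2 : (n : ℝ) * t ≤ p * t := mul_le_mul_of_nonneg_right (by exact_mod_cast hn) ht
    have h3 : 0 ≤ (p : ℝ) * t := mul_nonneg (Nat.cast_nonneg _) ht
    linarith
  · obtain ⟨q, hq⟩ : ∃ q, n = p + q := ⟨n - p, by omega⟩
    obtain ⟨x, hx⟩ : ∃ x, x = a q := ⟨_, rfl⟩
    rcases Nat.eq_zero_or_pos p with rfl | hp
    · -- no cost at all
      exfalso
      have h1 : 0 < ∑ i ∈ range n, a i := Finset.sum_pos (fun i _ => ha0 i) ⟨0, by simp; omega⟩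
      simp at hK
      linarith
    have hu : 0 < d - x := by
      have := had q (by simp; omega)
      rw [hx]
      linarith
    have hsplit : ∑ i ∈ range q, a i ≤ ∑ i ∈ range p, (d - a (q + i)) := by
      rw [hq, add_comm p q, Finset.sum_range_add] at hK
      rw [Finset.sum_sub_distrib, Finset.sum_const, Finset.card_range, nsmul_eq_mul]
      linarith
    have key : ∀ m J, m + p + J = n → need a p x d 0 m J ≤ p * (d - x) := by
      intro m J hmJ
      have hqm : q = m + J := by omega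
      unfold need
      simp only [zero_add]
      have h1 : ∑ i ∈ range m, a i + J * a m ≤ ∑ i ∈ range q, a i := by
        rw [hqm, Finset.sum_range_add]
        have h2 : ∑ i ∈ range J, a m ≤ ∑ i ∈ range J, a (m + i) :=
          Finset.sum_le_sum fun i _ => ha (Nat.le_add_right _ _)
        rw [Finset.sum_const, Finset.card_range, nsmul_eq_mul] at h2
        linarith
      have h2 : ∑ i ∈ range J, (d - a (m + p + i)) - J * a m ≤
          ∑ i ∈ range J, max 0 (d - a (m + p + i) - a m) := by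
        have h3 : ∑ i ∈ range J, (d - a (m + p + i) - a m) ≤ ∑ i ∈ range J, max 0 (d - a (m + p + i) - a m) :=
          Finset.sum_le_sum fun i _ => le_max_right _ _
        rw [Finset.sum_sub_distrib, Finset.sum_const, Finset.card_range, nsmul_eq_mul] at h3
        exact h3
      rcases le_total J p with hJ | hJ
      · obtain ⟨r, hr⟩ : ∃ r, p = r + J := ⟨p - J, by omega⟩
        have h3 : ∑ i ∈ range p, (d - a (q + i)) =
            ∑ i ∈ range r, (d - a (q + i)) + ∑ i ∈ range J, (d - a (m + p + i)) := by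
          conv_lhs => rw [hr, Finset.sum_range_add]
          congr 1
          refine Finset.sum_congr rfl fun i _ => ?_
          congr 2
          omega
        have h4 : ∑ i ∈ range r, (d - a (q + i)) ≤ r * (d - x) := by
          have h5 : ∑ i ∈ range r, (d - a (q + i)) ≤ ∑ i ∈ range r, (d - x) := by
            refine Finset.sum_le_sum fun i _ => ?_
            have := ha (Nat.le_add_right q i)
            rw [hx]
            linarith
          rwa [Finset.sum_const, Finset.card_range, nsmul_eq_mul] at h5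
        have h5 : (p : ℝ) = r + J := by exact_mod_cast hr
        rw [h5]
        nlinarith
      · obtain ⟨r, hr⟩ : ∃ r, J = r + p := ⟨J - p, by omega⟩
        have h3 : ∑ i ∈ range J, (d - a (m + p + i)) =
            ∑ i ∈ range r, (d - a (m + p + i)) + ∑ i ∈ range p, (d - a (q + i)) := by
          conv_lhs => rw [hr, Finset.sum_range_add]
          congr 1
          refine Finset.sum_congr rfl fun i _ => ?_
          congr 2
          omega
        have h4 : r * (d - x) ≤ ∑ i ∈ range r, (d - a (m + p + i)) := by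
          have h5 : ∑ i ∈ range r, (d - x) ≤ ∑ i ∈ range r, (d - a (m + p + i)) := by
            refine Finset.sum_le_sum fun i hi => ?_
            have := ha (show m + p + i ≤ q by
              have := Finset.mem_range.1 hi
              omega)
            rw [hx]
            linarith
          rwa [Finset.sum_const, Finset.card_range, nsmul_eq_mul] at h5
        have h5 : (J : ℝ) = r + p := by exact_mod_cast hr
        rw [h5]
        rw [h5] at h1 h2
        nlinarith
    have h1 := core (X := X) ha ha0 x hX n 0 d (p * (d - x)) t w hw ht (by linarith)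
      (fun i hi => had i (by simpa using hi)) (fun Z hZs hZc => hZ Z (by simpa using hZs) hZc)
      (mul_nonneg (Nat.cast_nonneg _) hu.le) key
    rw [zero_add, mul_div_assoc, div_self hu.ne', mul_one] at h1
    linarith

/-- **Lemma K.** Costs `0 < k i < d` with `∑ k i ≤ p * d`. -/
theorem lemmaK_t {ι : Type*} [Fintype ι] [DecidableEq ι] (p : ℕ) (d t : ℝ) (k : ι → ℝ) (hk0 : ∀ i, 0 < k i) (hkd : ∀ i, k i < d)
    (hK : ∑ i, k i ≤ p * d) (X : Ω → Finset ι) (hX : ∀ ω, (X ω).card ≤ p) (w : Ω → ℝ) (hw : ∀ ω, 0 ≤ w ω) (ht : 0 ≤ t)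
    (h : ∀ Z : Finset ι, ∑ i ∈ Z, k i < d → ∑ ω with ∃ i ∈ Z, i ∈ X ω, w ω ≤ t) :
    ∑ ω, w ω * ((X ω).card : ℝ) ≤ 2 * p * t := by
  classical
  rcases isEmpty_or_nonempty ι with hι | ⟨⟨i0⟩⟩
  · have h1 : ∀ ω, (X ω).card = 0 := fun ω => by
      rw [Finset.card_eq_zero]
      exact Finset.eq_empty_of_isEmpty _
    simp only [h1, Nat.cast_zero, mul_zero, Finset.sum_const_zero]
    positivity
  obtain ⟨N, hN⟩ : ∃ N, N = Fintype.card ι := ⟨_, rfl⟩
  have hN0 : 0 < N := by
    rw [hN]
    exact Fintype.card_pos_iff.2 ⟨i0⟩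
  obtain ⟨e⟩ : Nonempty (Fin N ≃ ι) := by
    rw [hN]
    exact ⟨(Fintype.equivFin ι).symm⟩
  obtain ⟨g, hg⟩ : ∃ g : Fin N ≃ ι, Monotone (k ∘ g) := by
    refine ⟨(Tuple.sort (k ∘ e)).trans e, ?_⟩
    have := Tuple.monotone_sort (k ∘ e)
    exact this
  obtain ⟨a, had⟩ : ∃ a : ℕ → ℝ, a = fun i => k (g ⟨min i (N - 1), by omega⟩) := ⟨_, rfl⟩
  have ha : Monotone a := by
    intro i j hij
    rw [had]
    apply hg
    rw [Fin.mk_le_mk]
    exact min_le_min_right _ hij
  have ha0 : ∀ i, 0 < a i := fun i => by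
    rw [had]
    exact hk0 _
  obtain ⟨em, hem⟩ : ∃ em : ι ↪ ℕ, em = g.symm.toEmbedding.trans Fin.valEmbedding := ⟨_, rfl⟩
  have hem' : ∀ i, em i = (g.symm i).val := fun i => by rw [hem]; rfl
  have hlt : ∀ i, em i < N := fun i => by
    rw [hem']
    exact (g.symm i).2
  have hae : ∀ i, a (em i) = k i := by
    intro i
    rw [had, hem']
    show k (g ⟨min (g.symm i).val (N - 1), _⟩) = k i
    congr 1
    rw [← g.apply_symm_apply i]
    congr 1
    rw [g.apply_symm_apply]
    apply Fin.ext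
    show min (g.symm i).val (N - 1) = (g.symm i).val
    have := (g.symm i).2
    omega
  have hmap : ∀ Z ⊆ Ico 0 N, ∃ Z' : Finset ι, Z = Z'.map em := by
    intro Z hZ
    refine ⟨Finset.univ.filter fun i => em i ∈ Z, ?_⟩
    ext j
    simp only [Finset.mem_map, Finset.mem_filter, Finset.mem_univ, true_and]
    constructor
    · intro hj
      have hjN : j < N := (Finset.mem_Ico.1 (hZ hj)).2
      have h1 : em (g ⟨j, hjN⟩) = j := by rw [hem', g.symm_apply_apply]
      exact ⟨g ⟨j, hjN⟩, by rw [h1]; exact hj, h1⟩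
    · rintro ⟨i, hi, rfl⟩
      exact hi
  have huniv : (Finset.univ : Finset ι).map em = range N := by
    ext j
    simp only [Finset.mem_map, Finset.mem_univ, true_and, Finset.mem_range]
    constructor
    · rintro ⟨i, rfl⟩
      exact hlt i
    · intro hj
      exact ⟨g ⟨j, hj⟩, by rw [hem', g.symm_apply_apply]⟩
  have hhit : ∀ Z' : Finset ι, hit (fun ω => (X ω).map em) w (Z'.map em) = ∑ ω with ∃ i ∈ Z', i ∈ X ω, w ω := by
    intro Z'
    unfold hit
    rw [Finset.sum_filter]
    refine Finset.sum_congr rfl fun ω _ => ?_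
    have h1 : (∃ i ∈ Z'.map em, i ∈ (X ω).map em) ↔ ∃ i ∈ Z', i ∈ X ω := by
      constructor
      · rintro ⟨j, hj, hj'⟩
        obtain ⟨i, hi, rfl⟩ := Finset.mem_map.1 hj
        exact ⟨i, hi, (Finset.mem_map' em).1 hj'⟩
      · rintro ⟨i, hi, hi'⟩
        exact ⟨em i, (Finset.mem_map' em).2 hi, (Finset.mem_map' em).2 hi'⟩
    simp only [h1]
  have key := seq (X := fun ω => (X ω).map em) (p := p) ha ha0 (fun ω => by rw [Finset.card_map]; exact hX ω) N (d := d) (t := t)
    (fun i hi => by rw [had]; exact hkd _) (by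
      rw [← huniv, Finset.sum_map]
      simp only [hae]
      exact hK) (w := w) hw ht (by
      intro Z hZs hZc
      obtain ⟨Z', rfl⟩ := hmap Z hZs
      rw [Finset.sum_map] at hZc
      simp only [hae] at hZc
      rw [hhit]
      exact h Z' hZc)
  have hvol : vol (fun ω => (X ω).map em) w (Ico 0 N) = ∑ ω, w ω * ((X ω).card : ℝ) := by
    unfold vol
    refine Finset.sum_congr rfl fun ω _ => ?_
    have h1 : (X ω).map em ∩ Ico 0 N = (X ω).map em := by
      rw [Finset.inter_eq_left]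
      intro j hj
      obtain ⟨i, _, rfl⟩ := Finset.mem_map.1 hj
      exact Finset.mem_Ico.2 ⟨Nat.zero_le _, hlt i⟩
    rw [h1, Finset.card_map]
  rw [← hvol]
  exact key

/-- **Lemma K** (`t = 1`). -/
theorem lemmaK {ι : Type*} [Fintype ι] [DecidableEq ι] (p : ℕ) (d : ℝ) (k : ι → ℝ) (hk0 : ∀ i, 0 < k i) (hkd : ∀ i, k i < d)
    (hK : ∑ i, k i ≤ p * d) (X : Ω → Finset ι) (hX : ∀ ω, (X ω).card ≤ p) (w : Ω → ℝ) (hw : ∀ ω, 0 ≤ w ω)
    (h : ∀ Z : Finset ι, ∑ i ∈ Z, k i < d → ∑ ω with ∃ i ∈ Z, i ∈ X ω, w ω ≤ 1) :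
    ∑ ω, w ω * ((X ω).card : ℝ) ≤ 2 * p := by
  have := lemmaK_t p d 1 k hk0 hkd hK X hX w hw zero_le_one h
  linarith

/-- **Lemma K** for natural costs `1 ≤ k i ≤ s` with `∑ k i ≤ p * (s + 1)`. -/
theorem lemmaK_nat {ι : Type*} [Fintype ι] [DecidableEq ι] (p s : ℕ) (k : ι → ℕ) (hk0 : ∀ i, 1 ≤ k i) (hks : ∀ i, k i ≤ s)
    (hK : ∑ i, k i ≤ p * (s + 1)) (X : Ω → Finset ι) (hX : ∀ ω, (X ω).card ≤ p) (w : Ω → ℝ) (hw : ∀ ω, 0 ≤ w ω)
    (h : ∀ Z : Finset ι, ∑ i ∈ Z, k i ≤ s → ∑ ω with ∃ i ∈ Z, i ∈ X ω, w ω ≤ 1) :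
    ∑ ω, w ω * ((X ω).card : ℝ) ≤ 2 * p := by
  refine lemmaK p (s + 1) (fun i => (k i : ℝ)) (fun i => ?_) (fun i => ?_) ?_ X hX w hw fun Z hZ => h Z ?_
  · exact_mod_cast hk0 i
  · have := hks i
    show (k i : ℝ) < s + 1
    exact_mod_cast Nat.lt_succ_of_le this
  · exact_mod_cast hK
  · have h1 : ((∑ i ∈ Z, k i : ℕ) : ℝ) < ((s + 1 : ℕ) : ℝ) := by
      push_cast
      exact hZ
    exact Nat.lt_succ_iff.1 (by exact_mod_cast h1)

end Pool.Agent.LK94
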